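import Pool.Agent.MP_db5b97_nt.H85.Spec

/-! The automorphism group of a morphism of projective space of degree at least two is finite. -/

namespace Pool.Agent.MP_db5b97_nt.H85

open Polynomial Matrix Finset

variable {K : Type} [Field K] {n d : ℕ}

theorem fin_hom {g : MvPolynomial (Fin n) K} (hg : g.IsHomogeneous d) (a : K) (x : Fin n → K) :
    MvPolynomial.eval (a • x) g = a ^ d * MvPolynomial.eval x g := by
  rw [MvPolynomial.eval_eq, MvPolynomial.eval_eq, mul_sum]
  refine sum_congr rfl fun s hs => ?_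
  simp only [Pi.smul_apply, smul_eq_mul, mul_pow, prod_mul_distrib, prod_pow_eq_pow_sum,
    ← hg.degree_eq_sum_deg_support hs]
  ring

theorem fin_coeff {ι : Type} (s : Finset ι) (q : ι → K[X]) (m : ι → ℕ)
    (h : ∀ i, (q i).natDegree ≤ m i) : (∏ i ∈ s, q i).natDegree ≤ ∑ i ∈ s, m i ∧
      (∏ i ∈ s, q i).coeff (∑ i ∈ s, m i) = ∏ i ∈ s, (q i).coeff (m i) := by
  classical
  induction s using Finset.induction_on with
  | empty => simp
  | insert i s hi ih =>
    rw [prod_insert hi, prod_insert hi, sum_insert hi, coeff_mul_add_eq_of_natDegree_le (h i) ih.1,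
      ih.2]
    exact ⟨natDegree_mul_le.trans (add_le_add (h i) ih.1), rfl⟩

theorem fin_top {g : MvPolynomial (Fin n) K} (hg : g.IsHomogeneous d) {k : ℕ} (p : Fin n → K[X])
    (hp : ∀ j, (p j).natDegree ≤ k) :
    (MvPolynomial.aeval p g).coeff (d * k) = MvPolynomial.eval (fun j => (p j).coeff k) g := by
  rw [MvPolynomial.aeval_def, MvPolynomial.eval₂_eq, MvPolynomial.eval_eq, finsetSum_coeff]
  refine sum_congr rfl fun s hs => ?_
  rw [Polynomial.algebraMap_apply, coeff_C_mul, hg.degree_eq_sum_deg_support hs, sum_mul,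
    (fin_coeff _ _ _ fun i => natDegree_pow_le_of_le _ (hp i)).2]
  simp [coeff_pow_of_natDegree_le (hp _)]

theorem fin_eig {φ : Matrix (Fin n) (Fin n) K} {a : K} :
    a ∈ φ.charpoly.roots ↔ ∃ v ≠ 0, φ *ᵥ v = a • v := by
  rw [mem_roots φ.charpoly_monic.ne_zero, IsRoot, eval_charpoly, ← exists_mulVec_eq_zero_iff]
  refine exists_congr fun v => and_congr_right fun _ => ?_
  rw [sub_mulVec, sub_eq_zero, scalar_apply, eq_comm]
  refine iff_of_eq (congrArg _ ?_)
  ext i
  simp [mulVec_diagonal]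

theorem fin_pow {φ : Matrix (Fin n) (Fin n) K} {a : K} {v : Fin n → K} (h : φ *ᵥ v = a • v)
    (k : ℕ) : (φ ^ k) *ᵥ v = a ^ k • v := by
  induction k with
  | zero => simp
  | succ k ih => rw [pow_succ, ← mulVec_mulVec, h, mulVec_smul, ih, smul_smul, pow_succ']

theorem fin_card [IsAlgClosed K] (φ : Matrix (Fin n) (Fin n) K) : φ.charpoly.roots.card = n := by
  rw [← (IsAlgClosed.splits _).natDegree_eq_card_roots, charpoly_natDegree_eq_dim, Fintype.card_fin]

/-- Burnside: a linear group of finite exponent in characteristic zero is finite -/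
theorem fin_burn [IsAlgClosed K] [CharZero K] {S : Set (Matrix (Fin n) (Fin n) K)} (h1 : 1 ∈ S)
    (hm : ∀ φ ∈ S, ∀ χ ∈ S, φ * χ ∈ S) {e : ℕ} (he : ∀ φ ∈ S, φ ^ (e + 1) = 1) : S.Finite := by
  classical
  have hp : ∀ φ ∈ S, ∀ k, φ ^ k ∈ S := fun φ hφ k => by
    induction k with
    | zero => simpa using h1
    | succ k ih => rw [pow_succ]; exact hm _ ih _ hφ
  obtain ⟨b, b1, b2, b3⟩ := exists_linearIndependent K S
  have := b3.finite
  have hT : ∀ φ ∈ S, φ.trace ∈
      ((nthRootsFinset (e + 1) (1 : K)).sym n).image fun s => s.1.sum := fun φ hφ => by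
    refine mem_image.2 ⟨⟨_, fin_card φ⟩, mem_sym_iff.2 fun a ha => ?_,
      (trace_eq_sum_roots_charpoly φ).symm⟩
    obtain ⟨v, v0, hv⟩ := fin_eig.1 ha
    have := fin_pow hv (e + 1)
    rw [he φ hφ, one_mulVec] at this
    exact (mem_nthRootsFinset e.succ_pos 1).2
      (smul_left_injective K v0 (this.symm.trans (one_smul K v).symm))
  refine Set.Finite.of_injOn (f := fun φ (g : b) => (φ * g.1).trace) ?_ (fun φ hφ χ hχ h => ?_)
    (Set.Finite.pi' fun _ => finite_toSet
      (((nthRootsFinset (e + 1) (1 : K)).sym n).image fun s => s.1.sum))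
  · exact fun φ hφ g => hT _ (hm _ hφ _ (b1 g.2))
  have t1 : ∀ a ∈ S, (φ * a).trace = (χ * a).trace := fun a ha => by
    have : a ∈ Submodule.span K b := b2 ▸ Submodule.subset_span ha
    clear ha
    induction this using Submodule.span_induction with
    | mem x hx => exact congrFun h ⟨x, hx⟩
    | zero => simp
    | add x y _ _ hx hy => simp [mul_add, hx, hy]
    | smul c x _ hx => simp [hx]
  obtain ⟨u, hu⟩ : ∃ u, u = φ * χ ^ e := ⟨_, rfl⟩
  have u1 : u ∈ S := hu ▸ hm _ hφ _ (hp _ hχ e)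
  have t2 : ∀ k, (u ^ k).trace = n := fun k => by
    induction k with
    | zero => simp
    | succ k ih =>
      rw [pow_succ', ← ih]
      nth_rewrite 1 [hu]
      rw [mul_assoc, t1 _ (hm _ (hp _ hχ e) _ (hp _ u1 k)), ← mul_assoc, ← pow_succ', he χ hχ,
        one_mul]
  obtain ⟨Q, hQ⟩ : ∃ Q, Q = ((e + 1 : ℕ) : K)⁻¹ • ∑ i ∈ range (e + 1), u ^ i := ⟨_, rfl⟩
  have e0 : ((e + 1 : ℕ) : K) ≠ 0 := Nat.cast_ne_zero.2 e.succ_ne_zero
  have q1 : u * Q = Q := by
    rw [← sub_eq_zero, ← sub_one_mul, hQ, mul_smul_comm, mul_geom_sum, he u u1, sub_self, smul_zero]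
  have q2 : ∀ k, u ^ k * Q = Q := fun k => by
    induction k with
    | zero => simp
    | succ k ih => rw [pow_succ, mul_assoc, q1, ih]
  have q3 : IsIdempotentElem Q := by
    rw [IsIdempotentElem]
    nth_rewrite 1 [hQ]
    rw [smul_mul_assoc, sum_mul, sum_congr rfl fun i _ => q2 i, sum_const, card_range,
      ← Nat.cast_smul_eq_nsmul K, inv_smul_smul₀ e0]
  have q4 : toLin' (1 - Q) = 0 := by
    refine LinearMap.IsIdempotentElem.eq_zero_of_trace_eq_zero (q3.one_sub.map toLinAlgEquiv') ?_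
    rw [trace_toLin'_eq, trace_sub, hQ, trace_smul, trace_sum, sum_congr rfl fun i _ => t2 i]
    simp [← mul_assoc, inv_mul_cancel₀ (by exact_mod_cast e0 : (e : K) + 1 ≠ 0)]
  rw [map_eq_zero_iff _ toLin'.injective, sub_eq_zero] at q4
  rw [← q4, mul_one] at q1
  rw [← mul_one φ, ← he χ hχ, pow_succ, ← mul_assoc, ← hu, q1, one_mul]

/-- the commutation relation -/
def FinP (f : Fin n → MvPolynomial (Fin n) K) (φ : Matrix (Fin n) (Fin n) K) (c : K) : Prop :=
  ∀ x : Fin n → K, (fun i => MvPolynomial.eval (φ *ᵥ x) (f i)) =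
    c • φ *ᵥ fun i => MvPolynomial.eval x (f i)

variable {f : Fin n → MvPolynomial (Fin n) K} {φ χ : Matrix (Fin n) (Fin n) K} {c c' : K}

theorem FinP.mul (h : FinP f φ c) (h' : FinP f χ c') : FinP f (φ * χ) (c * c') := fun x => by
  rw [← mulVec_mulVec, h, h', mulVec_smul, smul_smul, mulVec_mulVec]

theorem FinP.pow (h : FinP f φ c) (k : ℕ) : FinP f (φ ^ k) (c ^ k) := by
  induction k with
  | zero => intro x; simp
  | succ k ih => rw [pow_succ, pow_succ]; exact ih.mul h

theorem FinP.eig (h : FinP f φ c) (hc : c ≠ 0) (hf : ∀ i, (f i).IsHomogeneous d) {a : K}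
    {v : Fin n → K} (hv : φ *ᵥ v = a • v) : φ *ᵥ (fun i => MvPolynomial.eval v (f i)) =
      (a ^ d / c) • fun i => MvPolynomial.eval v (f i) := by
  rw [div_eq_inv_mul, mul_smul, eq_inv_smul_iff₀ hc, ← h, hv]
  ext i
  simp [fin_hom (hf i)]

/-- a unipotent automorphism is trivial -/
theorem FinP.unip [CharZero K] (h : FinP f φ c) (hc : c ≠ 0) (hd : 2 ≤ d)
    (hf : ∀ i, (f i).IsHomogeneous d)
    (h0 : ∀ x : Fin n → K, (∀ i, MvPolynomial.eval x (f i) = 0) → x = 0)
    (hN : IsNilpotent (φ - 1)) : φ = 1 := by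
  classical
  obtain ⟨N, rfl⟩ : ∃ N, φ = N + 1 := ⟨φ - 1, by simp⟩
  rw [add_sub_cancel_right] at hN
  by_contra hne
  have N0 : N ≠ 0 := fun h => hne (by simp [h])
  obtain ⟨k, k0, k1, k2⟩ : ∃ k, 0 < k ∧ N ^ k ≠ 0 ∧ N ^ (k + 1) = 0 := by
    have a1 := Nat.find_spec hN
    have a2 : 1 < Nat.find hN := (Nat.lt_find_iff hN 1).2 fun m hm h => by
      interval_cases m
      · exact N0 (by rw [← mul_one N, ← pow_zero N, h, mul_zero])
      · exact N0 (by simpa using h)
    exact ⟨Nat.find hN - 1, by omega, Nat.find_min hN (by omega),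
      by rwa [Nat.sub_add_cancel a2.le]⟩
  obtain ⟨x, hx⟩ : ∃ x, (N ^ k) *ᵥ x ≠ 0 := by
    by_contra! hx
    exact k1 (toLin'.injective (LinearMap.ext fun x => by
      rw [toLin'_apply, hx, map_zero, LinearMap.zero_apply]))
  have c1 : c = 1 := by
    have a1 := h.eig hc hf (a := 1) (v := (N ^ k) *ᵥ x)
      (by rw [add_mulVec, mulVec_mulVec, ← pow_succ', k2]; simp)
    rw [add_mulVec, one_mulVec, ← eq_sub_iff_add_eq] at a1
    have a2 := fin_pow (a := 1 ^ d / c - 1) (a1.trans (by rw [sub_smul, one_smul])) (k + 1)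
    rw [k2, zero_mulVec, eq_comm, smul_eq_zero] at a2
    have a3 := sub_eq_zero.1 (pow_eq_zero_iff k.succ_ne_zero |>.1
      (a2.resolve_right fun h => hx (h0 _ (congrFun h))))
    rw [one_pow, div_eq_one_iff_eq hc] at a3
    exact a3.symm
  let p : (Fin n → K) → Fin n → K[X] := fun y j =>
    ∑ i ∈ range (k + 1), C (((N ^ i) *ᵥ y) j / i.factorial) * descPochhammer K i
  have p1 : ∀ y j, (p y j).natDegree ≤ k := fun y j =>
    natDegree_sum_le_of_forall_le _ _ fun i hi => (natDegree_C_mul_le _ _).trans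
      (by rw [descPochhammer_natDegree]; exact Nat.lt_succ_iff.1 (mem_range.1 hi))
  have p2 : ∀ y j, (p y j).coeff k = ((N ^ k) *ᵥ y) j / k.factorial := fun y j => by
    rw [finsetSum_coeff, sum_range_succ, sum_eq_zero fun i hi => by
      rw [coeff_C_mul, coeff_eq_zero_of_natDegree_lt
        (by rw [descPochhammer_natDegree]; exact mem_range.1 hi), mul_zero], zero_add, coeff_C_mul]
    have := (monic_descPochhammer K k).coeff_natDegree
    rw [descPochhammer_natDegree] at this
    rw [this, mul_one]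
  have p3 : ∀ y (t : ℕ), (fun j => (p y j).eval (t : K)) = ((N + 1) ^ t) *ᵥ y := fun y t => by
    have a1 : (N + 1) ^ t = ∑ i ∈ range (k + 1), (t.choose i : K) • N ^ i := by
      have b1 : ∀ i, N ^ i * 1 ^ (t - i) * (t.choose i : Matrix (Fin n) (Fin n) K) =
          (t.choose i : K) • N ^ i := fun i => by
        rw [one_pow, mul_one, Nat.cast_smul_eq_nsmul, nsmul_eq_mul']
      rw [(Commute.one_right N).add_pow, sum_congr rfl fun i _ => b1 i,
        sum_subset (range_mono (by omega : t + 1 ≤ t + k + 1)) fun i _ hi => by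
          rw [Nat.choose_eq_zero_of_lt (by simpa using hi)]; simp,
        sum_subset (range_mono (by omega : k + 1 ≤ t + k + 1)) fun i _ hi => by
          rw [pow_eq_zero_of_le (by simpa using hi) k2, smul_zero]]
    ext j
    rw [a1, sum_mulVec, Finset.sum_apply, eval_finsetSum]
    refine sum_congr rfl fun i _ => ?_
    have : (i.factorial : K) ≠ 0 := Nat.cast_ne_zero.2 i.factorial_ne_zero
    rw [eval_C_mul, descPochhammer_eval_eq_descFactorial, Nat.descFactorial_eq_factorial_mul_choose,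
      smul_mulVec, Pi.smul_apply, smul_eq_mul]
    push_cast
    field_simp
  have p4 : ∀ i, MvPolynomial.aeval (p x) (f i) = p (fun i => MvPolynomial.eval x (f i)) i :=
    fun i => by
      refine eq_of_infinite_eval_eq _ _ ((Set.infinite_range_of_injective
        (Nat.cast_injective (R := K))).mono ?_)
      rintro _ ⟨t, rfl⟩
      have a1 := congrFun (h.pow t x) i
      rw [c1, one_pow, one_smul, ← p3, ← p3] at a1
      refine Eq.trans ?_ a1
      rw [← coe_aeval_eq_eval, MvPolynomial.comp_aeval_apply]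
      rfl
  have : (k.factorial : K) ≠ 0 := Nat.cast_ne_zero.2 k.factorial_ne_zero
  refine hx (funext fun j => ?_)
  have a1 := congrFun (h0 (fun j => (p x j).coeff k) fun i => by
    rw [← fin_top (hf i) _ (p1 x), p4, coeff_eq_zero_of_natDegree_lt ((p1 _ i).trans_lt
      (by nlinarith))]) j
  simpa [p2, this] using a1

theorem FinP.expo [IsAlgClosed K] [CharZero K] (h : FinP f φ c) (hc : c ≠ 0) (hd : 2 ≤ d)
    (hf : ∀ i, (f i).IsHomogeneous d)
    (h0 : ∀ x : Fin n → K, (∀ i, MvPolynomial.eval x (f i) = 0) → x = 0) (h1 : φ.det = 1) :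
    φ ^ (n * (d ^ n).factorial) = 1 := by
  classical
  obtain ⟨γ, hγ⟩ := IsAlgClosed.exists_pow_nat_eq c (by omega : 0 < d - 1)
  have g0 : γ ≠ 0 := fun h => hc (by rw [← hγ, h, zero_pow (by omega)])
  rw [det_eq_prod_roots_charpoly] at h1
  have a1 : ∀ β, γ * β ∈ φ.charpoly.roots → ∀ i, γ * β ^ d ^ i ∈ φ.charpoly.roots := by
    intro β hβ i
    induction i with
    | zero => simpa using hβ
    | succ i ih =>
      obtain ⟨v, v0, hv⟩ := fin_eig.1 ih
      refine fin_eig.2 ⟨_, fun h => v0 (h0 v (congrFun h)), (h.eig hc hf hv).trans ?_⟩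
      rw [← hγ, mul_pow, ← pow_mul, ← pow_succ, ← mul_pow_sub_one (by omega : d ≠ 0) γ]
      congr 1
      field_simp
  have a2 : ∀ a ∈ φ.charpoly.roots, a ^ (d ^ n).factorial = γ ^ (d ^ n).factorial := by
    intro a ha
    have a0 : a / γ ≠ 0 := div_ne_zero (fun h => by
      rw [Multiset.prod_eq_zero (h ▸ ha)] at h1; exact zero_ne_one h1) g0
    have key : ∀ i j, i < j → j ≤ n → γ * (a / γ) ^ d ^ i = γ * (a / γ) ^ d ^ j →
        a ^ (d ^ n).factorial = γ ^ (d ^ n).factorial := fun i j hij hj e => by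
      have b1 : d ^ i < d ^ j := Nat.pow_lt_pow_right hd hij
      have b2 : d ^ j ≤ d ^ n := Nat.pow_le_pow_right (by omega) hj
      obtain ⟨m, hm⟩ := Nat.dvd_factorial (by omega : 0 < d ^ j - d ^ i) (by omega : _ ≤ d ^ n)
      have b3 : (a / γ) ^ (d ^ j - d ^ i) = 1 := by
        rw [pow_sub₀ _ a0 b1.le, ← mul_left_cancel₀ g0 e, mul_inv_cancel₀ (pow_ne_zero _ a0)]
      rw [← div_eq_one_iff_eq (pow_ne_zero _ g0), ← div_pow, hm, pow_mul, b3, one_pow]
    obtain ⟨i, hi, j, hj, hij, e⟩ := exists_ne_map_eq_of_card_lt_of_maps_to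
      (s := range (n + 1)) (t := φ.charpoly.roots.toFinset) (f := fun i => γ * (a / γ) ^ d ^ i)
      (by simpa using Nat.lt_succ_of_le ((Multiset.toFinset_card_le _).trans (fin_card φ).le))
      fun i _ => by simpa using a1 _ (by rwa [mul_div_cancel₀ _ g0]) i
    rcases hij.lt_or_gt with h | h
    · exact key i j h (by simpa [Nat.lt_succ_iff] using hj) e
    · exact key j i h (by simpa [Nat.lt_succ_iff] using hi) e.symm
  have a3 : (γ ^ (d ^ n).factorial) ^ n = 1 := by
    have := Multiset.prod_map_pow (m := φ.charpoly.roots) (f := fun a => a) (n := (d ^ n).factorial)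
    rw [Multiset.map_id', h1, one_pow, Multiset.map_congr rfl (g := fun _ => _) a2,
      Multiset.map_const', Multiset.prod_replicate, fin_card] at this
    exact this
  refine (h.pow _).unip (pow_ne_zero _ hc) hd hf h0 ⟨n, ?_⟩
  obtain ⟨q, hq⟩ : φ.charpoly ∣ (X ^ (n * (d ^ n).factorial) - 1) ^ n := by
    have := Multiset.prod_dvd_prod_of_dvd (S := φ.charpoly.roots) (fun a => X - C a)
      (fun _ => X ^ (n * (d ^ n).factorial) - 1) fun a ha => dvd_iff_isRoot.2 (by
        simp [pow_mul', a2 a ha, a3])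
    rwa [← (IsAlgClosed.splits _).eq_prod_roots_of_monic φ.charpoly_monic, Multiset.map_const',
      Multiset.prod_replicate, fin_card] at this
  simpa [aeval_self_charpoly] using congrArg (aeval φ) hq

theorem rowFIN : RowFIN := fun n d f hd hf h0 => by
  rcases n.eq_zero_or_pos with rfl | hn
  · exact Set.toFinite _
  refine fin_burn ⟨det_one, 1, one_ne_zero, fun x => by simp⟩ ?_
    (e := n * (d ^ n).factorial - 1) ?_
  · rintro φ ⟨a1, c, a2, a3⟩ χ ⟨b1, c', b2, b3⟩
    exact ⟨by rw [det_mul, a1, b1, one_mul], _, mul_ne_zero a2 b2, FinP.mul a3 b3⟩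
  · rintro φ ⟨a1, c, a2, a3⟩
    rw [Nat.sub_add_cancel (Nat.mul_pos hn (Nat.factorial_pos _))]
    exact FinP.expo a3 a2 hd hf h0 a1

end Pool.Agent.MP_db5b97_nt.H85
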